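import Pool.Agent.Lib.MP_8a8b2f_an.K.Defs
import Pool.Agent.Lib.MP_8a8b2f_an.K.Final
import Pool.Agent.Lib.MP_8a8b2f_an.K.Iso

/-!
# Resolvent lower bounds and lower bounds of contraction semigroups: the sharp constant

Condition (i) with the constant `m` implies condition (ii) for all contraction `C_0`-semigroups on
Hilbert spaces if and only if `m ≥ 1`. For `m < 1` it does not even exclude strong stability; the
examples are the right translation semigroups on `L²((0,∞), (1+x)^(-2k) dx)` with small `k > 0`, whose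
generators satisfy condition (i) for all `m` with `m² ≤ 1 - 4k²`. For `m ≥ 1` all `T(t)` are isometries.

The definitions `IsContractionSemigroup`, `GeneratorMaps`, `ConditionI`, `ConditionII` are in
`Pool/Agent/Lib/MP_8a8b2f_an/K/Defs.lean`.
-/

set_option autoImplicit false

open Filter Topology Set

noncomputable section

namespace Pool.Agent.Results.MP_8a8b2f_an.SharpConstant

open Pool.Agent.Lib.MP_8a8b2f_an.K

/-- The counterexamples: for every `m < 1` and `ε > 0` there is a strongly stable contraction semigroup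
with (i) for the constant `m` and with `‖T(t) x‖ ≥ (1+t)^(-ε) ‖x‖`. -/
theorem example_of_lt {m ε : ℝ} (hm : m < 1) (hε : 0 < ε) :
    ∃ (H : Type) (_ : NormedAddCommGroup H) (_ : InnerProductSpace ℂ H) (_ : CompleteSpace H)
      (_ : TopologicalSpace.SeparableSpace H) (_ : Nontrivial H) (T : ℝ → H →L[ℂ] H),
      IsContractionSemigroup T ∧ ConditionI T m ∧
      (∀ x : H, Tendsto (fun t : ℝ => T t x) atTop (𝓝 0)) ∧
      (∀ t : ℝ, 0 ≤ t → ∀ x : H, ‖x‖ ≤ (1 + t) ^ ε * ‖T t x‖) := by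
  obtain ⟨m', hm0, hm1, hmm⟩ : ∃ m' : ℝ, 0 ≤ m' ∧ m' < 1 ∧ m ≤ m' :=
    ⟨max m 0, le_max_right _ _, max_lt hm one_pos, le_max_left _ _⟩
  have h1 : 0 < 1 - m' ^ 2 := by nlinarith
  obtain ⟨k, hk0, hkε, hkm⟩ : ∃ k : ℝ, 0 < k ∧ k ≤ ε ∧ m' ^ 2 ≤ 1 - 4 * k ^ 2 := by
    refine ⟨min ε (√(1 - m' ^ 2) / 2), lt_min hε (by positivity), min_le_left _ _, ?_⟩
    have h2 : min ε (√(1 - m' ^ 2) / 2) ≤ √(1 - m' ^ 2) / 2 := min_le_right _ _
    have h3 : 0 ≤ min ε (√(1 - m' ^ 2) / 2) := le_min hε.le (by positivity)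
    have h4 := pow_le_pow_left₀ h3 h2 2
    rw [div_pow, Real.sq_sqrt h1.le] at h4
    linarith
  obtain ⟨f, hf⟩ := exists_ne_zero k
  refine ⟨H k, inferInstance, inferInstance, inferInstance, inferInstance, ⟨⟨f, 0, hf⟩⟩,
    T hk0.le, ⟨T_zero hk0.le, fun s t hs ht => T_add hk0.le hs ht,
      fun x => continuousOn_T hk0.le x, fun t _ => norm_T_le hk0.le t⟩, ?_,
    fun x => tendsto_T_atTop hk0.le hk0 x, fun t ht x => ?_⟩
  · refine ConditionI.mono hmm ?_
    intro x y hxy μ hμ
    exact resolvent_bound hk0.le hxy hkm hμ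
  · refine (norm_le_mul_norm_T hk0.le ht x).trans ?_
    apply mul_le_mul_of_nonneg_right _ (norm_nonneg _)
    exact Real.rpow_le_rpow_of_exponent_le (by linarith) hkε

/-- Strong stability excludes (ii) on a nonzero space. -/
theorem not_conditionII {H : Type} [NormedAddCommGroup H] [InnerProductSpace ℂ H] [Nontrivial H]
    {T : ℝ → H →L[ℂ] H} (h : ∀ x : H, Tendsto (fun t : ℝ => T t x) atTop (𝓝 0)) :
    ¬ ConditionII T := by
  rintro ⟨m₁, hm₁, hall⟩
  obtain ⟨f, hf⟩ := exists_ne (0 : H)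
  have h1 := (h f).norm
  rw [norm_zero] at h1
  have h2 : m₁ * ‖f‖ ≤ 0 := by
    refine ge_of_tendsto h1 ?_
    filter_upwards [Filter.eventually_ge_atTop (0 : ℝ)] with t ht
    exact hall t ht f
  have h3 : 0 < m₁ * ‖f‖ := mul_pos hm₁ (norm_pos_iff.2 hf)
  linarith

/-- **Theorem.** (1) There are a Hilbert space and a contraction `C_0`-semigroup on it which satisfies
condition (i) for some `m > 0` but not condition (ii) (negative answer to Q1).
(2) Sharp constant: for every real `m`, condition (i) with the constant `m` implies condition (ii) for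
all contraction `C_0`-semigroups on Hilbert spaces if and only if `m ≥ 1`; for `m ≥ 1` it implies that
all `T(t)` are isometries, and for `m < 1` and every `ε > 0` there is a strongly stable contraction
`C_0`-semigroup on a nonzero separable Hilbert space with (i) for this `m` and
`‖T(t) x‖ ≥ (1+t)^(-ε) ‖x‖` for all `t ≥ 0` and all `x`. -/
theorem result :
    (∃ (H : Type) (_ : NormedAddCommGroup H) (_ : InnerProductSpace ℂ H) (_ : CompleteSpace H)
      (T : ℝ → H →L[ℂ] H), IsContractionSemigroup T ∧ (∃ m : ℝ, 0 < m ∧ ConditionI T m) ∧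
        ¬ ConditionII T) ∧
    ∀ m : ℝ,
      ((∀ (H : Type) [NormedAddCommGroup H] [InnerProductSpace ℂ H] [CompleteSpace H]
        (T : ℝ → H →L[ℂ] H), IsContractionSemigroup T → ConditionI T m → ConditionII T) ↔ 1 ≤ m) ∧
      (1 ≤ m → ∀ (H : Type) [NormedAddCommGroup H] [InnerProductSpace ℂ H] [CompleteSpace H]
        (T : ℝ → H →L[ℂ] H), IsContractionSemigroup T → ConditionI T m →
          ∀ t : ℝ, 0 ≤ t → ∀ x : H, ‖T t x‖ = ‖x‖) ∧
      (m < 1 → ∀ ε : ℝ, 0 < ε →
        ∃ (H : Type) (_ : NormedAddCommGroup H) (_ : InnerProductSpace ℂ H) (_ : CompleteSpace H)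
          (_ : TopologicalSpace.SeparableSpace H) (_ : Nontrivial H) (T : ℝ → H →L[ℂ] H),
          IsContractionSemigroup T ∧ ConditionI T m ∧
          (∀ x : H, Tendsto (fun t : ℝ => T t x) atTop (𝓝 0)) ∧
          (∀ t : ℝ, 0 ≤ t → ∀ x : H, ‖x‖ ≤ (1 + t) ^ ε * ‖T t x‖)) := by
  refine ⟨?_, fun m => ⟨⟨fun h => ?_, fun h H _ _ _ T hT hc => ?_⟩,
    fun h H _ _ _ T hT hc t ht x => norm_eq_of_conditionI hT h hc ht x,
    fun h ε hε => example_of_lt h hε⟩⟩
  · obtain ⟨H, i1, i2, i3, _, _, T, hT, hc, hs, _⟩ :=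
      example_of_lt (m := 1 / 2) (ε := 1) (by norm_num) one_pos
    exact ⟨H, i1, i2, i3, T, hT, ⟨1 / 2, by norm_num, hc⟩, not_conditionII hs⟩
  · by_contra hcon
    push Not at hcon
    obtain ⟨H, i1, i2, i3, _, _, T, hT, hc, hs, _⟩ := example_of_lt (m := m) (ε := 1) hcon one_pos
    exact not_conditionII hs (h H T hT hc)
  · exact ⟨1, one_pos, fun t ht x => by
      rw [one_mul, norm_eq_of_conditionI hT h hc ht x]⟩

end Pool.Agent.Results.MP_8a8b2f_an.SharpConstant
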